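import Pool.Agent.H602.TY.Main
import Pool.Agent.H602.TY.Lower

/-!
# The polynomial Freiman-Ruzsa theorem for almost all Freiman isomorphism types

The sets are the `n`-element subsets `A`, `|A + A| ≤ K |A|`, of ALL torsion-free abelian groups, up to
Freiman isomorphism.

* `Typ` : a modulus `m` and a finite set of residues modulo `m`.
* `Has A q` : `A` is Freiman isomorphic (order 2) to the set of residues `q`.
* `Concl D M A` : some `A' ⊆ A` with `|A| ≤ M |A'|` is Freiman isomorphic (order 2) to a subset of a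
  proper progression of integers, of rank at most `D` and size at most `3 |A + A|`.
* `prog a v N` is the progression `{a + ∑ m_i v_i : 0 ≤ m_i < N_i}`; `Proper v N` says that all these
  sums are distinct.

1. For all `K ≥ 1`, `n ≥ 1` and every order `k ≥ 2` there are at most `(2 K) ^ (100002 k n)`
   isomorphism types of order `k`.
2. For `2 ≤ K ≤ n ^ (1 - δ)`, `n ≥ n₀(δ)`, the number of types of order `2` is between `(K / 64) ^ n`
   and `(120 K) ^ n`.
3. For `1 ≤ Q ≤ K ≤ n ^ (1 - δ)` all but `(C K / Q) ^ n` types satisfy `Concl` with the rank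
   `C log (2 Q)` and the density `(2 Q) ^ (- C (1 + log (1 + log (2 Q))))`.
4. For `1 ≤ K ≤ n ^ (1 - δ)` all but `(C K ^ (1 - 1 / (1 + log (1 + log (4 K))))) ^ n` types satisfy
   `Concl` with the rank `C log (4 K) / (1 + log (1 + log (4 K)))` and the density `1 / (C K ^ C)`.

Proof. By the theorem on polynomial models (`Pool.Agent.H602.MD.model`) `A` is isomorphic to a set of
residues modulo `m ≤ (2 K) ^ C n`; the set of the least non-negative residues has doubling at most
`2 K` and lies in an interval whose length has logarithm `O(log n)`, and its intersections with the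
quarters of the interval are isomorphic to parts of `A`. So the container theorem and the structure
theorem for almost all sets of the library apply in the whole range `K ≤ n ^ (1 - δ)`. The lower bound
of 2: sets which contain `{0, …, s} ∪ {s, 2 s, …, s ^ 2}` and lie in `[0, s ^ 2]` are rigid.
-/

set_option autoImplicit false

namespace Pool.Agent.Results.MP_86f7a7_co.IsomorphismTypes

open Finset Pool.Agent.H602.TY
open scoped Pointwise

universe u w

theorem result :
    -- 1. all parameters, all orders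
    (∀ k : ℕ, 2 ≤ k → ∀ K : ℝ, 1 ≤ K → ∀ n : ℕ, 1 ≤ n →
      ∃ F : Finset Typ, (F.card : ℝ) ≤ (2 * K) ^ (100002 * k * n) ∧
        ∀ (G : Type u) [AddCommGroup G] [DecidableEq G],
          (∀ (j : ℕ) (x : G), j ≠ 0 → j • x = 0 → x = 0) → ∀ A : Finset G, A.card = n →
          ((A + A).card : ℝ) ≤ K * A.card →
          ∃ q ∈ F, ∃ φ : G → ZMod q.1,
            IsAddFreimanIso k (A : Set G) (q.2 : Set (ZMod q.1)) φ) ∧
    -- 2. the number of types
    (∀ δ : ℝ, 0 < δ → δ ≤ 1 → ∃ n₀ : ℕ, ∀ (n : ℕ) (K : ℝ), n₀ ≤ n → 2 ≤ K →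
      K ≤ (n : ℝ) ^ (1 - δ) →
      (∃ F : Finset Typ, (F.card : ℝ) ≤ (120 * K) ^ n ∧
        ∀ {G : Type u} [AddCommGroup G] [DecidableEq G]
          (_ : ∀ (j : ℕ) (x : G), j ≠ 0 → j • x = 0 → x = 0) (A : Finset G), A.card = n →
          ((A + A).card : ℝ) ≤ K * n → ∃ q ∈ F, Has A q) ∧
      ∀ (ι : Type w) [Fintype ι] (H : ι → Type w) [∀ i, AddCommGroup (H i)]
        (B : ∀ i, Set (H i)),
        (∀ A : Finset ℤ, A.card = n → ((A + A).card : ℝ) ≤ K * n →
          ∃ (i : ι) (φ : ℤ → H i), IsAddFreimanIso 2 (A : Set ℤ) (B i) φ) →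
        (K / 64) ^ n ≤ (Fintype.card ι : ℝ)) ∧
    -- 3. almost all types, with a parameter
    (∃ C : ℝ, 1 ≤ C ∧ ∀ δ : ℝ, 0 < δ → ∃ n₀ : ℕ, ∀ (n : ℕ) (K Q : ℝ), n₀ ≤ n →
      1 ≤ Q → Q ≤ K → K ≤ (n : ℝ) ^ (1 - δ) →
      ∃ F : Finset Typ, (F.card : ℝ) ≤ (C * K / Q) ^ n ∧
        ∀ {G : Type u} [AddCommGroup G] [DecidableEq G]
          (_ : ∀ (j : ℕ) (x : G), j ≠ 0 → j • x = 0 → x = 0) (A : Finset G), A.card = n →
          ((A + A).card : ℝ) ≤ K * n → (∀ q ∈ F, ¬ Has A q) →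
          Concl (C * Real.log (2 * Q))
            ((2 * Q) ^ (C * (1 + Real.log (1 + Real.log (2 * Q))))) A) ∧
    -- 4. almost all types
    (∃ C : ℝ, 1 ≤ C ∧ ∀ δ : ℝ, 0 < δ → ∃ n₀ : ℕ, ∀ (n : ℕ) (K : ℝ), n₀ ≤ n → 1 ≤ K →
      K ≤ (n : ℝ) ^ (1 - δ) →
      ∃ F : Finset Typ,
        (F.card : ℝ) ≤ (C * K ^ (1 - 1 / (1 + Real.log (1 + Real.log (4 * K))))) ^ n ∧
        ∀ {G : Type u} [AddCommGroup G] [DecidableEq G]
          (_ : ∀ (j : ℕ) (x : G), j ≠ 0 → j • x = 0 → x = 0) (A : Finset G), A.card = n →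
          ((A + A).card : ℝ) ≤ K * n → (∀ q ∈ F, ¬ Has A q) →
          Concl (C * Real.log (4 * K) / (1 + Real.log (1 + Real.log (4 * K)))) (C * K ^ C) A) := by
  refine ⟨fun k hk K hK n hn => Pool.Agent.H602.MD.upper k hk K hK n hn, ?_, almostQ, almost⟩
  intro δ hδ hδ1
  obtain ⟨n₀, h⟩ := main.{u} δ hδ
  refine ⟨max n₀ ⌈(16 / δ) ^ (4 / δ)⌉₊, fun n K hn hK hKn => ⟨?_, ?_⟩⟩
  · obtain ⟨F, hF, h1⟩ := h n K ((le_max_left _ _).trans hn) (by linarith) hKn
    exact ⟨F, hF, fun htf A hA hAK => h1 htf A hA hAK⟩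
  · intro ι _ H _ B hB
    refine lower_final hδ hδ1 ?_ hK hKn B hB
    exact (Nat.le_ceil _).trans (by exact_mod_cast (le_max_right _ _).trans hn)

end Pool.Agent.Results.MP_86f7a7_co.IsomorphismTypes
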